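import Pool.Agent.H8.TrainProof

set_option autoImplicit false

namespace Pool.Agent.Results.MP_03ede5_co.Bounded

open Pool.Agent.H8.Train

/-- Regular train networks of any dimension have schedules of bounded delay. -/
theorem result (d l : ℕ) : ∃ C : ℝ, ∀ N : Set (Line d), IsNetwork N →
    ∃ t : Line d → ℝ, IsSchedule l N t ∧ ∀ L ∈ N, t L ≤ C :=
  main d l

end Pool.Agent.Results.MP_03ede5_co.Bounded
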